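import Mathlib

/-!
Project MM (MP_18ea5f_nt): the weak Manin conjecture for complete intersections of `k` divisors of
type `(1, ..., 1)` in products of projective spaces over number fields.

`K` number field, `d = [K : ℚ]`, `ι` the set of the factors `ℙ^(n i)`, `V i = K^(n i + 1)`.
-/

set_option autoImplicit false

namespace Pool.Agent.Q35.MM

open Finset Function

/-- `K`-multilinear forms on the product of the spaces `K^(n i + 1)`. -/
abbrev Frm (K : Type) [Field K] {ι : Type} (n : ι → ℕ) : Type :=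
  MultilinearMap K (fun i : ι => Fin (n i + 1) → K) K

/-- Tuples of vectors. -/
abbrev Tup (K : Type) {ι : Type} (n : ι → ℕ) : Type := ∀ i : ι, Fin (n i + 1) → K

section Forms

variable {K : Type} [Field K] {ι : Type} [DecidableEq ι] {n : ι → ℕ}

/-- The matrix of the bilinear form `g (..., x, ..., y, ...)` in the arguments `i ≠ j`, the other
arguments being those of `P`. -/
def mat (g : Frm K n) (P : Tup K n) (i j : ι) : Matrix (Fin (n i + 1)) (Fin (n j + 1)) K :=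
  fun a b => g (update (update P i (Pi.single a 1)) j (Pi.single b 1))

/-- The system of the linear forms in the `i`-th argument. -/
def lin {k : ℕ} (f : Fin k → Frm K n) (P : Tup K n) (i : ι) :
    Fin k → (Fin (n i + 1) → K) →ₗ[K] K :=
  fun t => (f t).toLinearMap P i

/-- The zeros of the system at which for every `i` the `k` linear forms in the `i`-th argument are
linearly independent. -/
def InU {k : ℕ} (f : Fin k → Frm K n) (P : Tup K n) : Prop :=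
  (∀ t, f t P = 0) ∧ ∀ i, LinearIndependent K (lin f P i)

/-- All bilinear forms which one gets from `g` by nonzero `K`-vectors have rank at least `r`. -/
def RkGe (r : ℕ) (g : Frm K n) : Prop :=
  ∀ i j, i ≠ j → ∀ P : Tup K n, (∀ l, l ≠ i → l ≠ j → P l ≠ 0) → r ≤ (mat g P i j).rank

end Forms

section Boxes

variable (K : Type) [Field K] [NumberField K]

/-- The integral elements of `K` all of whose conjugates have absolute value at most `b`. -/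
def S1 (b : ℕ) : Set K := {x | IsIntegral ℤ x ∧ ∀ φ : K →+* ℂ, ‖φ x‖ ≤ b}

theorem S1_finite (b : ℕ) : (S1 K b).Finite :=
  NumberField.Embeddings.finite_of_norm_le K ℂ b

/-- The vectors with coordinates in `S1 K b`. -/
noncomputable def bx (m b : ℕ) : Finset (Fin m → K) :=
  Fintype.piFinset fun _ => (S1_finite K b).toFinset

/-- The degree of `K`. -/
noncomputable abbrev dg : ℕ := Module.finrank ℚ K

variable {K}

theorem mem_bx {m b : ℕ} {x : Fin m → K} : x ∈ bx K m b ↔ ∀ a, x a ∈ S1 K b := by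
  unfold bx
  rw [Fintype.mem_piFinset]
  refine forall_congr' fun a => ?_
  rw [Set.Finite.mem_toFinset]

end Boxes

section Counts

variable (K : Type) [Field K] [NumberField K] {ι : Type} [Fintype ι] [DecidableEq ι] {n : ι → ℕ}

open Classical in
/-- The tuples of nonzero vectors in the boxes, with the `j`-th vector `0`. -/
noncomputable def QQ (n : ι → ℕ) (j : ι) (b : ι → ℕ) : Finset (Tup K n) :=
  Fintype.piFinset fun l => if l = j then {0} else (bx K (n l + 1) (b l)).filter (· ≠ 0)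

variable {K}

open Classical in
/-- The tuples `P` of nonzero vectors (except of the `j`-th vector, which is `0`) in the boxes for
which `g P` vanishes identically in the `j`-th argument. -/
noncomputable def WW (g : Frm K n) (j : ι) (b : ι → ℕ) : Finset (Tup K n) :=
  (QQ K n j b).filter fun P => g.toLinearMap P j = 0

open Classical in
/-- The tuples for which the linear forms in the `j`-th argument have rank `k - e`. -/
noncomputable def TT {k : ℕ} (f : Fin k → Frm K n) (e : ℕ) (j : ι) (b : ι → ℕ) :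
    Finset (Tup K n) :=
  (QQ K n j b).filter fun P =>
    Module.finrank K (Submodule.span K (Set.range (lin f P j))) + e = k

open Classical in
/-- The points in the boxes. -/
noncomputable def FF {k : ℕ} (f : Fin k → Frm K n) (b : ι → ℕ) : Finset (Tup K n) :=
  (Fintype.piFinset fun l => bx K (n l + 1) (b l)).filter fun P => InU f P

end Counts

/-! ## The lemmas -/

/-- AD: the abstract descent. -/
def S_AD : Prop :=
  ∀ (ι : Type) [Fintype ι] [DecidableEq ι] (S : Finset ι) (e : ι → ℕ) (m : ℕ) (δ : ℝ), S.Nonempty →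
    0 < δ → (∀ i, e i ≤ m) → ∀ (Φ : (ι → ℕ) → ℝ),
    (∀ b : ι → ℕ, (∀ l, 1 ≤ b l) → 1 ≤ Φ b) →
    (∀ (b : ι → ℕ) (i : ι) (ρ : ℕ), (∀ l, 1 ≤ b l) → i ∈ S → (∀ l ∈ S, b l ≤ b i) → 1 ≤ ρ →
      ρ ≤ b i → Φ (update b i ρ) * ((b i : ℝ) / ρ) ^ e i ≤ Φ b) →
    ∀ (D : ℝ) (A0 : ℕ → ℝ), 0 ≤ D → ∃ C : ℝ, 0 ≤ C ∧
      ∀ F : (ι → ℕ) → ℝ, (∀ b, 0 ≤ F b) →
      (∀ (b : ι → ℕ) (c : ℕ), (∀ l ∈ S, b l ≤ c) → F b ≤ A0 c) →
      (∀ (b : ι → ℕ) (i : ι) (ρ : ℕ) (q : ℝ), (∀ l, 1 ≤ b l) → i ∈ S → (∀ l ∈ S, b l ≤ b i) →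
        1 ≤ ρ → ρ ≤ b i → 1 ≤ q → (b i : ℝ) ≤ q * ρ →
        F b ≤ (3 * (b i : ℝ) / ρ) ^ e i *
          (F (update b i ρ) + D * q ^ m * (∏ l ∈ S, (b l : ℝ)) ^ δ * Φ (update b i ρ))) →
      ∀ b : ι → ℕ, (∀ l, 1 ≤ b l) → F b ≤ C * Φ b * (∏ l ∈ S, (b l : ℝ)) ^ (2 * δ)

/-- DB: points of a subspace in boxes. -/
def S_DB : Prop :=
  ∀ (K : Type) [Field K] [NumberField K] (m : ℕ) (V : Submodule K (Fin m → K)) (r : ℕ),
    Module.finrank K V ≤ r → ∀ C ρ : ℕ, 1 ≤ ρ → ρ ≤ C → ∀ [DecidablePred (· ∈ V)],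
      (((bx K m C).filter (· ∈ V)).card : ℝ) ≤
        (3 * C / ρ) ^ (dg K * r) * (((bx K m ρ).filter (· ∈ V)).card : ℝ)

/-- LW: many points of a subspace in boxes. -/
def S_LW : Prop :=
  ∀ (K : Type) [Field K] [NumberField K] (m : ℕ) (V : Submodule K (Fin m → K)), ∃ c : ℝ, 0 < c ∧
    ∃ B0 : ℕ, ∀ B : ℕ, B0 ≤ B → ∀ [DecidablePred (· ∈ V)],
      c * (B : ℝ) ^ (dg K * Module.finrank K V) ≤ (((bx K m B).filter (· ∈ V)).card : ℝ)

/-- MK: representatives of the points of projective spaces. -/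
def S_MK : Prop :=
  ∀ (K : Type) [Field K] [NumberField K], ∃ c : ℕ, 1 ≤ c ∧ ∀ (m : ℕ) (x : Fin m → K), x ≠ 0 →
    ∀ B : ℕ, 1 ≤ B → Height.mulHeight x ≤ (B : ℝ) ^ dg K → ∃ t : K, t ≠ 0 ∧ t • x ∈ bx K m (c * B)

/-- CR: small linear relations. -/
def S_CR : Prop :=
  ∀ (K : Type) [Field K] [NumberField K] (k : ℕ), ∃ c : ℕ, 1 ≤ c ∧ ∀ (m B e : ℕ), 1 ≤ B → 1 ≤ e →
    ∀ w : Fin k → Fin m → K, (∀ t, w t ∈ bx K m B) →
      Module.finrank K (Submodule.span K (Set.range w)) + e = k →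
      ∃ μ : Fin k → K, μ ≠ 0 ∧ μ ∈ bx K k (c * B ^ (k - e)) ∧ ∑ t, μ t • w t = 0

/-- GB: the bound for `WW`, uniform in the form. -/
def S_GB : Prop :=
  ∀ (K : Type) [Field K] [NumberField K] (ι : Type) [Fintype ι] [DecidableEq ι] (n : ι → ℕ)
    (r u t : ℕ), 2 ≤ Fintype.card ι → u + t ≤ r →
    (∀ i, u * (Fintype.card ι - 1) + t ≤ n i + 1) → ∀ δ : ℝ, 0 < δ → ∃ C : ℝ, 0 ≤ C ∧
    ∀ g : Frm K n, RkGe r g → ∀ (j i : ι), i ≠ j → ∀ b : ι → ℕ, (∀ l, 1 ≤ b l) →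
      ((WW g j b).card : ℝ) * (b i : ℝ) ^ (dg K * t) ≤
        C * (∏ l ∈ univ.erase j, (b l : ℝ) ^ (dg K * (n l + 1 - u))) *
          (∏ l ∈ univ.erase j, (b l : ℝ)) ^ δ

/-- TB: the bound for `TT`. -/
def S_TB : Prop :=
  ∀ (K : Type) [Field K] [NumberField K] (ι : Type) [Fintype ι] [DecidableEq ι] (n : ι → ℕ)
    (k : ℕ) (f : Fin k → Frm K n), 2 ≤ Fintype.card ι → 1 ≤ k →
    (∀ i, k ^ 2 * (Fintype.card ι - 1) ≤ n i) →
    (∀ t, ∀ a : ∀ i, Fin (n i + 1), IsIntegral ℤ (f t fun i => Pi.single (a i) 1)) →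
    (∀ μ : Fin k → K, μ ≠ 0 → RkGe (k ^ 2 + 1) (∑ t, μ t • f t)) → ∀ δ : ℝ, 0 < δ →
    ∃ C : ℝ, 0 ≤ C ∧ ∀ e, 1 ≤ e → e ≤ k → ∀ (j i : ι), i ≠ j → ∀ b : ι → ℕ, (∀ l, 1 ≤ b l) →
      ((TT f e j b).card : ℝ) * (b i : ℝ) ^ (dg K * e) ≤
        C * (∏ l ∈ univ.erase j, (b l : ℝ) ^ (dg K * (n l + 1 - k))) *
          (∏ l ∈ univ.erase j, (b l : ℝ)) ^ δ

/-- FS: the descent step for the points. -/
def S_FS : Prop :=
  ∀ (K : Type) [Field K] [NumberField K] (ι : Type) [Fintype ι] [DecidableEq ι] (n : ι → ℕ)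
    (k : ℕ) (f : Fin k → Frm K n), 2 ≤ Fintype.card ι → 1 ≤ k → (∀ i, k ≤ n i) →
    ∃ D : ℝ, 0 ≤ D ∧ ∀ (b : ι → ℕ) (i : ι) (ρ : ℕ), (∀ l, 1 ≤ b l) → 1 ≤ ρ → ρ ≤ b i →
      ((FF f b).card : ℝ) ≤ (3 * (b i : ℝ) / ρ) ^ (dg K * (n i + 1 - k)) *
        ((FF f (update b i ρ)).card +
          D * (∑ j ∈ univ.erase i, ∑ e ∈ Icc 1 k,
            (TT f e j (update b i ρ)).card * (b j : ℝ) ^ (dg K * (n j + 1 - k + e))) +
          D * ∏ l ∈ univ.erase i, (b l : ℝ) ^ (dg K * (n l + 1)))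

/-- FB: the box count. -/
def S_FB : Prop :=
  ∀ (K : Type) [Field K] [NumberField K] (ι : Type) [Fintype ι] [DecidableEq ι] (n : ι → ℕ)
    (k : ℕ) (f : Fin k → Frm K n), 2 ≤ Fintype.card ι → 1 ≤ k →
    (∀ i, k ^ 2 * (Fintype.card ι - 1) ≤ n i) →
    (∀ μ : Fin k → K, μ ≠ 0 → RkGe (k ^ 2 + 1) (∑ t, μ t • f t)) → ∀ δ : ℝ, 0 < δ →
    ∃ C : ℝ, 0 ≤ C ∧ ∀ b : ι → ℕ, (∀ l, 1 ≤ b l) →
      ((FF f b).card : ℝ) ≤
        C * (∏ l, (b l : ℝ) ^ (dg K * (n l + 1 - k))) * (∏ l, (b l : ℝ)) ^ δ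

/-- NE: there are points. -/
def S_NE : Prop :=
  ∀ (K : Type) [Field K] [NumberField K] (ι : Type) [Fintype ι] [DecidableEq ι] (n : ι → ℕ)
    (k : ℕ) (f : Fin k → Frm K n), 2 ≤ Fintype.card ι → 1 ≤ k →
    (∀ i, k ^ 2 * (Fintype.card ι - 1) ≤ n i) →
    (∀ μ : Fin k → K, μ ≠ 0 → RkGe (k ^ 2 + 1) (∑ t, μ t • f t)) → ∃ P : Tup K n, InU f P

/-- Points of the product of the projective spaces. -/
abbrev Pts (K : Type) [Field K] {ι : Type} (n : ι → ℕ) : Type :=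
  ∀ i : ι, Projectivization K (Fin (n i + 1) → K)

/-- The infimum of all `s` such that `s L + K_X` is in the cone generated by the pull-backs of the
hyperplane classes, `L = (l i)`, `K_X = (-(n i + 1 - k))`. -/
noncomputable def fuj {ι : Type} (n : ι → ℕ) (k : ℕ) (l : ι → ℝ) : ℝ :=
  sInf {s : ℝ | ∀ i, 0 ≤ s * l i - ((n i : ℝ) + 1 - k)}

/-- The points of `U` of bounded height. -/
def Low {K : Type} [Field K] [NumberField K] {ι : Type} [Fintype ι] [DecidableEq ι] {n : ι → ℕ}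
    {k : ℕ} (f : Fin k → Frm K n) (l : ι → ℝ) (T : ℝ) : Set (Pts K n) :=
  {x | InU f (fun i => (x i).rep) ∧ ∏ i, (x i).mulHeight ^ l i ≤ T}

/-- FIN: from boxes to heights. -/
def S_FIN : Prop :=
  ∀ (K : Type) [Field K] [NumberField K] (ι : Type) [Fintype ι] [DecidableEq ι] (n : ι → ℕ)
    (k : ℕ) (f : Fin k → Frm K n), 2 ≤ Fintype.card ι → 1 ≤ k → (∀ i, k ≤ n i) →
    (∀ δ : ℝ, 0 < δ → ∃ C : ℝ, 0 ≤ C ∧ ∀ b : ι → ℕ, (∀ l, 1 ≤ b l) →
      ((FF f b).card : ℝ) ≤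
        C * (∏ l, (b l : ℝ) ^ (dg K * (n l + 1 - k))) * (∏ l, (b l : ℝ)) ^ δ) →
    ∀ l : ι → ℝ, (∀ i, 0 < l i) → ∀ ε : ℝ, 0 < ε → ∃ C : ℝ, ∀ T : ℝ, 1 ≤ T →
      (Low f l T).Finite ∧ ((Low f l T).ncard : ℝ) ≤ C * T ^ (fuj n k l + ε)

end Pool.Agent.Q35.MM
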