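import Mathlib
import Pool.Agent.Q35.MM.Stm

set_option autoImplicit false

namespace Pool.Agent.Q35.MM

open Finset Function

section Scale

variable {K : Type} [Field K] {ι : Type} [DecidableEq ι] {n : ι → ℕ} {k : ℕ}

theorem lin_smul (m : K) (f : Fin k → Frm K n) (P : Tup K n) (i : ι) :
    lin (fun t => m • f t) P i = fun t => m • lin f P i t := by
  funext t
  ext x
  simp [lin]

theorem linInd_smul {m : K} (hm : m ≠ 0) {E : Type} [AddCommGroup E] [Module K E] (v : Fin k → E) :
    LinearIndependent K (fun t => m • v t) ↔ LinearIndependent K v := by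
  constructor
  · intro h
    have h2 := h.units_smul (fun _ => (Units.mk0 m hm)⁻¹)
    convert h2 using 1
    funext t
    simp only [Pi.smul_apply']
    rw [Units.smul_def, smul_smul]
    simp [hm]
  · intro h
    have h2 := h.units_smul (fun _ => Units.mk0 m hm)
    exact h2

theorem InU_smul {m : K} (hm : m ≠ 0) (f : Fin k → Frm K n) (P : Tup K n) :
    InU (fun t => m • f t) P ↔ InU f P := by
  unfold InU
  refine and_congr ?_ ?_
  · refine forall_congr' fun t => ?_
    simp [hm]
  · refine forall_congr' fun i => ?_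
    rw [lin_smul]
    exact linInd_smul hm _

end Scale

/-- A nonzero integer which makes all coefficients integral. -/
theorem exists_den (K : Type) [Field K] [NumberField K] (s : Finset K) :
    ∃ m : ℤ, m ≠ 0 ∧ ∀ x ∈ s, IsIntegral ℤ ((m : K) * x) := by
  obtain ⟨m, hm, h⟩ := exists_integral_multiples ℤ ℚ (L := K) s
  refine ⟨m, hm, fun x hx => ?_⟩
  have h2 := h x hx
  rwa [zsmul_eq_mul] at h2

theorem fb (hAD : S_AD) (hTB : S_TB) (hFS : S_FS) : S_FB := by
  intro K _ _ ι _ _ n k f hs hk hn hR δ hδ
  classical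
  -- scaling
  obtain ⟨m0, hm0, hint⟩ := exists_den K
    (univ.biUnion fun t : Fin k => univ.image fun a : ∀ i, Fin (n i + 1) =>
      f t fun i => Pi.single (a i) 1)
  have hm0K : (m0 : K) ≠ 0 := by exact_mod_cast hm0
  set f' : Fin k → Frm K n := fun t => (m0 : K) • f t with hf'
  have hint' : ∀ t, ∀ a : ∀ i, Fin (n i + 1), IsIntegral ℤ (f' t fun i => Pi.single (a i) 1) := by
    intro t a
    have h := hint (f t fun i => Pi.single (a i) 1) (by
      rw [mem_biUnion]
      exact ⟨t, mem_univ _, mem_image_of_mem _ (mem_univ a)⟩)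
    simpa [hf'] using h
  have hR' : ∀ μ : Fin k → K, μ ≠ 0 → RkGe (k ^ 2 + 1) (∑ t, μ t • f' t) := by
    intro μ hμ
    have h := hR (fun t => (m0 : K) * μ t) (by
      intro h0
      apply hμ
      funext t
      have := congrFun h0 t
      simpa [hm0K] using this)
    have e : (∑ t, μ t • f' t) = ∑ t, ((m0 : K) * μ t) • f t := by
      refine Finset.sum_congr rfl fun t _ => ?_
      rw [hf']
      simp only [smul_smul]
      rw [mul_comm]
    rw [e]
    exact h
  have hFF : ∀ b, FF f' b = FF f b := by
    intro b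
    unfold FF
    refine Finset.filter_congr fun P _ => ?_
    exact InU_smul hm0K f P
  set δ' := δ / 2 with hδ'
  have hδ0 : 0 < δ' := by positivity
  obtain ⟨CT, hCT, hT⟩ := hTB K ι n k f' hs hk hn hint' hR' δ' hδ0
  have hkn : ∀ i, k * (Fintype.card ι - 1) ≤ n i := by
    intro i
    refine le_trans ?_ (hn i)
    gcongr
    nlinarith
  have hkn1 : ∀ i, k ≤ n i := by
    intro i
    refine le_trans ?_ (hkn i)
    have : 1 ≤ Fintype.card ι - 1 := by omega
    nlinarith
  have hkn2 : ∀ i, k * (Fintype.card ι - 1) + k ≤ n i + 1 := by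
    intro i
    have h1 := hn i
    obtain ⟨s, hs'⟩ : ∃ s, Fintype.card ι = s + 2 := ⟨Fintype.card ι - 2, by omega⟩
    rw [hs'] at h1 ⊢
    have e1 : s + 2 - 1 = s + 1 := by omega
    rw [e1] at h1 ⊢
    rcases Nat.lt_or_ge 1 k with h2 | h2
    · nlinarith
    · have : k = 1 := by omega
      subst this
      omega
  obtain ⟨D, hD, hF⟩ := hFS K ι n k f' hs hk hkn1
  set d := dg K with hd
  set m := d * (∑ i, n i + k * Fintype.card ι + k + 1) with hm
  set Φ : (ι → ℕ) → ℝ := fun b => ∏ l, (b l : ℝ) ^ (d * (n l + 1 - k)) with hΦ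
  have hS : (univ : Finset ι).Nonempty := by
    rw [← Finset.card_pos, Finset.card_univ]
    omega
  have hprod1 : ∀ (b : ι → ℕ) (s : Finset ι), (∀ l, 1 ≤ b l) → (1 : ℝ) ≤ ∏ l ∈ s, (b l : ℝ) := by
    intro b s hb
    exact Finset.one_le_prod fun l _ => by exact_mod_cast hb l
  obtain ⟨C, hC, h⟩ := hAD ι univ (fun i => d * (n i + 1 - k)) m δ' hS hδ0 (by
      intro i
      rw [hm]
      apply Nat.mul_le_mul_left
      have : n i ≤ ∑ i, n i := Finset.single_le_sum (fun _ _ => Nat.zero_le _) (mem_univ i)
      omega) Φ (by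
      intro b hb
      rw [hΦ]
      exact Finset.one_le_prod fun l _ => one_le_pow₀ (by exact_mod_cast hb l)) (by
      intro b i ρ hb _ _ hρ hρb
      have hρ0 : (0 : ℝ) < ρ := by exact_mod_cast hρ
      rw [hΦ]
      simp only
      rw [← Finset.mul_prod_erase univ _ (mem_univ i),
        ← Finset.mul_prod_erase univ (fun l => (b l : ℝ) ^ (d * (n l + 1 - k))) (mem_univ i)]
      rw [update_self]
      have e1 : ∏ x ∈ univ.erase i, ((update b i ρ x : ℕ) : ℝ) ^ (d * (n x + 1 - k)) =
          ∏ x ∈ univ.erase i, (b x : ℝ) ^ (d * (n x + 1 - k)) := by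
        refine Finset.prod_congr rfl fun x hx => ?_
        rw [update_of_ne (Finset.ne_of_mem_erase hx)]
      rw [e1]
      apply le_of_eq
      rw [div_pow]
      field_simp)
      (D * (Fintype.card ι * (k * CT)) + D)
      (fun c => ∏ l : ι, ((bx K (n l + 1) c).card : ℝ)) (by positivity)
  refine ⟨C, hC, ?_⟩
  intro b hb
  have key := h (fun b => ((FF f b).card : ℝ)) (fun b => by positivity) (by
      intro b c hbc
      have h1 : (FF f b).card ≤ ∏ l : ι, (bx K (n l + 1) c).card := by
        rw [← Fintype.card_piFinset]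
        apply Finset.card_le_card
        unfold FF
        refine (Finset.filter_subset _ _).trans ?_
        intro P hP
        rw [Fintype.mem_piFinset] at hP ⊢
        intro l
        have h2 := hP l
        rw [mem_bx] at h2 ⊢
        intro a
        refine ⟨(h2 a).1, fun φ => ((h2 a).2 φ).trans ?_⟩
        exact_mod_cast hbc l (mem_univ l)
      exact_mod_cast h1) (by
      intro b i ρ q hb _ hmax hρ hρb hq hqρ
      have hρ0 : (0 : ℝ) < ρ := by exact_mod_cast hρ
      have hρ1 : (1 : ℝ) ≤ ρ := by exact_mod_cast hρ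
      have hq0 : (0 : ℝ) < q := by linarith
      have hb1 : ∀ l, (1 : ℝ) ≤ (b l : ℝ) := fun l => by exact_mod_cast hb l
      have hbq : ∀ l, (b l : ℝ) ≤ q * ρ := fun l =>
        le_trans (by exact_mod_cast hmax l (mem_univ l)) hqρ
      have hb'1 : ∀ l, 1 ≤ update b i ρ l := by
        intro l
        by_cases hl : l = i
        · subst hl
          rw [update_self]
          exact hρ
        · rw [update_of_ne hl]
          exact hb l
      have h1 := hF b i ρ hb hρ hρb
      rw [hFF, hFF] at h1
      refine h1.trans ?_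
      apply mul_le_mul_of_nonneg_left _ (by positivity)
      rw [add_assoc]
      refine add_le_add_right ?_ _
      -- the profile
      have hΦ' : ∀ j, Φ (update b i ρ) = ((update b i ρ j : ℕ) : ℝ) ^ (d * (n j + 1 - k)) *
          ∏ l ∈ univ.erase j, ((update b i ρ l : ℕ) : ℝ) ^ (d * (n l + 1 - k)) := by
        intro j
        rw [hΦ]
        simp only
        rw [← Finset.mul_prod_erase univ _ (mem_univ j)]
      have hΦ0 : 0 ≤ Φ (update b i ρ) := by
        rw [hΦ]
        positivity
      have hP1 : (1 : ℝ) ≤ (∏ l, (b l : ℝ)) ^ δ' :=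
        Real.one_le_rpow (hprod1 b univ hb) hδ0.le
      have term1 : ∀ j ∈ univ.erase i, ∀ e ∈ Icc 1 k,
          ((TT f' e j (update b i ρ)).card : ℝ) * (b j : ℝ) ^ (d * (n j + 1 - k + e)) ≤
          CT * (q ^ m * (∏ l, (b l : ℝ)) ^ δ' * Φ (update b i ρ)) := by
        intro j hj e he
        rw [Finset.mem_Icc] at he
        have hji : j ≠ i := Finset.ne_of_mem_erase hj
        have h2 := hT e he.1 he.2 j i hji.symm (update b i ρ) hb'1
        rw [update_self] at h2
        have e1 : (b j : ℝ) ^ (d * (n j + 1 - k + e)) =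
            (b j : ℝ) ^ (d * (n j + 1 - k)) * (b j : ℝ) ^ (d * e) := by
          rw [← pow_add]
          congr 1
          ring
        have e2 : (b j : ℝ) ^ (d * e) ≤ q ^ m * (ρ : ℝ) ^ (d * e) := by
          calc (b j : ℝ) ^ (d * e) ≤ (q * ρ) ^ (d * e) := by
                apply pow_le_pow_left₀ (by positivity) (hbq j)
            _ = q ^ (d * e) * (ρ : ℝ) ^ (d * e) := mul_pow _ _ _
            _ ≤ q ^ m * (ρ : ℝ) ^ (d * e) := by
                apply mul_le_mul_of_nonneg_right _ (by positivity)
                apply pow_le_pow_right₀ hq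
                rw [hm]
                apply Nat.mul_le_mul_left
                omega
        have e3 : (∏ l ∈ univ.erase j, ((update b i ρ l : ℕ) : ℝ)) ^ δ' ≤
            (∏ l, (b l : ℝ)) ^ δ' := by
          apply Real.rpow_le_rpow (by positivity) _ hδ0.le
          calc ∏ l ∈ univ.erase j, ((update b i ρ l : ℕ) : ℝ) ≤ ∏ l ∈ univ.erase j, (b l : ℝ) := by
                apply Finset.prod_le_prod (fun _ _ => by positivity)
                intro l _
                by_cases hl : l = i
                · subst hl
                  rw [update_self]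
                  exact_mod_cast hρb
                · rw [update_of_ne hl]
            _ ≤ (b j : ℝ) * ∏ l ∈ univ.erase j, (b l : ℝ) :=
                le_mul_of_one_le_left (by positivity) (hb1 j)
            _ = ∏ l, (b l : ℝ) :=
                Finset.mul_prod_erase univ (fun l => ((b l : ℕ) : ℝ)) (mem_univ j)
        have e4 : ((update b i ρ j : ℕ) : ℝ) = (b j : ℝ) := by rw [update_of_ne hji]
        calc ((TT f' e j (update b i ρ)).card : ℝ) * (b j : ℝ) ^ (d * (n j + 1 - k + e)) =
            (b j : ℝ) ^ (d * (n j + 1 - k)) *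
              (((TT f' e j (update b i ρ)).card : ℝ) * (b j : ℝ) ^ (d * e)) := by
              rw [e1]
              ring
          _ ≤ (b j : ℝ) ^ (d * (n j + 1 - k)) *
              (((TT f' e j (update b i ρ)).card : ℝ) * (q ^ m * (ρ : ℝ) ^ (d * e))) := by
              gcongr
          _ = (b j : ℝ) ^ (d * (n j + 1 - k)) * q ^ m *
              (((TT f' e j (update b i ρ)).card : ℝ) * (ρ : ℝ) ^ (d * e)) := by ring
          _ ≤ (b j : ℝ) ^ (d * (n j + 1 - k)) * q ^ m *
              (CT * (∏ l ∈ univ.erase j, ((update b i ρ l : ℕ) : ℝ) ^ (d * (n l + 1 - k))) *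
                (∏ l ∈ univ.erase j, ((update b i ρ l : ℕ) : ℝ)) ^ δ') := by
              apply mul_le_mul_of_nonneg_left h2 (by positivity)
          _ ≤ (b j : ℝ) ^ (d * (n j + 1 - k)) * q ^ m *
              (CT * (∏ l ∈ univ.erase j, ((update b i ρ l : ℕ) : ℝ) ^ (d * (n l + 1 - k))) *
                (∏ l, (b l : ℝ)) ^ δ') := by
              apply mul_le_mul_of_nonneg_left _ (by positivity)
              apply mul_le_mul_of_nonneg_left e3 (by positivity)
          _ = CT * (q ^ m * (∏ l, (b l : ℝ)) ^ δ' * Φ (update b i ρ)) := by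
              rw [hΦ' j, e4]
              ring
      have term2 : ∏ l ∈ univ.erase i, (b l : ℝ) ^ (d * (n l + 1)) ≤
          q ^ m * (∏ l, (b l : ℝ)) ^ δ' * Φ (update b i ρ) := by
        have e1 : ∏ l ∈ univ.erase i, (b l : ℝ) ^ (d * (n l + 1)) =
            (∏ l ∈ univ.erase i, (b l : ℝ) ^ (d * (n l + 1 - k))) *
              ∏ l ∈ univ.erase i, (b l : ℝ) ^ (d * k) := by
          rw [← Finset.prod_mul_distrib]
          refine Finset.prod_congr rfl fun l _ => ?_
          rw [← pow_add]
          congr 1
          have := hkn1 l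
          rw [← Nat.mul_add]
          congr 1
          omega
        have e2 : ∏ l ∈ univ.erase i, (b l : ℝ) ^ (d * k) ≤ q ^ m * (ρ : ℝ) ^ (d * (n i + 1 - k)) := by
          calc ∏ l ∈ univ.erase i, (b l : ℝ) ^ (d * k) ≤ ∏ l ∈ univ.erase i, (q * ρ) ^ (d * k) := by
                apply Finset.prod_le_prod (fun _ _ => by positivity)
                intro l _
                exact pow_le_pow_left₀ (by positivity) (hbq l) _
            _ = (q * ρ) ^ (d * (k * (Fintype.card ι - 1))) := by
                rw [Finset.prod_const, Finset.card_erase_of_mem (mem_univ i), Finset.card_univ,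
                  ← pow_mul, mul_assoc]
            _ = q ^ (d * (k * (Fintype.card ι - 1))) *
                (ρ : ℝ) ^ (d * (k * (Fintype.card ι - 1))) := mul_pow _ _ _
            _ ≤ q ^ m * (ρ : ℝ) ^ (d * (n i + 1 - k)) := by
                apply mul_le_mul _ _ (by positivity) (by positivity)
                · apply pow_le_pow_right₀ hq
                  rw [hm]
                  apply Nat.mul_le_mul_left
                  have : k * (Fintype.card ι - 1) ≤ k * Fintype.card ι :=
                    Nat.mul_le_mul_left _ (Nat.sub_le _ _)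
                  omega
                · apply pow_le_pow_right₀ hρ1
                  apply Nat.mul_le_mul_left
                  have := hkn2 i
                  omega
        have e3 : ∏ l ∈ univ.erase i, ((update b i ρ l : ℕ) : ℝ) ^ (d * (n l + 1 - k)) =
            ∏ l ∈ univ.erase i, (b l : ℝ) ^ (d * (n l + 1 - k)) := by
          refine Finset.prod_congr rfl fun x hx => ?_
          rw [update_of_ne (Finset.ne_of_mem_erase hx)]
        calc ∏ l ∈ univ.erase i, (b l : ℝ) ^ (d * (n l + 1)) =
            (∏ l ∈ univ.erase i, (b l : ℝ) ^ (d * (n l + 1 - k))) *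
              ∏ l ∈ univ.erase i, (b l : ℝ) ^ (d * k) := e1
          _ ≤ (∏ l ∈ univ.erase i, (b l : ℝ) ^ (d * (n l + 1 - k))) *
              (q ^ m * (ρ : ℝ) ^ (d * (n i + 1 - k))) := by gcongr
          _ = q ^ m * 1 * Φ (update b i ρ) := by
              rw [hΦ' i, e3, update_self]
              ring
          _ ≤ q ^ m * (∏ l, (b l : ℝ)) ^ δ' * Φ (update b i ρ) := by gcongr
      have sum1 : ∑ j ∈ univ.erase i, ∑ e ∈ Icc 1 k,
          ((TT f' e j (update b i ρ)).card : ℝ) * (b j : ℝ) ^ (d * (n j + 1 - k + e)) ≤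
          Fintype.card ι * (k * CT) * (q ^ m * (∏ l, (b l : ℝ)) ^ δ' * Φ (update b i ρ)) := by
        calc _ ≤ ∑ j ∈ univ.erase i, ∑ e ∈ Icc 1 k,
            CT * (q ^ m * (∏ l, (b l : ℝ)) ^ δ' * Φ (update b i ρ)) :=
              Finset.sum_le_sum fun j hj => Finset.sum_le_sum fun e he => term1 j hj e he
          _ = ((univ.erase i).card : ℝ) * (k * (CT * (q ^ m * (∏ l, (b l : ℝ)) ^ δ' *
              Φ (update b i ρ)))) := by
              rw [Finset.sum_const, Finset.sum_const, nsmul_eq_mul, nsmul_eq_mul, Nat.card_Icc]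
              norm_num
          _ ≤ (Fintype.card ι : ℝ) * (k * (CT * (q ^ m * (∏ l, (b l : ℝ)) ^ δ' *
              Φ (update b i ρ)))) := by
              apply mul_le_mul_of_nonneg_right _ (by positivity)
              have : (univ.erase i).card ≤ Fintype.card ι := Finset.card_le_univ _
              exact_mod_cast this
          _ = _ := by ring
      calc _ ≤ D * (Fintype.card ι * (k * CT) * (q ^ m * (∏ l, (b l : ℝ)) ^ δ' *
            Φ (update b i ρ))) + D * (q ^ m * (∏ l, (b l : ℝ)) ^ δ' * Φ (update b i ρ)) := by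
            gcongr
        _ = _ := by ring) b hb
  have e5 : 2 * δ' = δ := by
    rw [hδ']
    ring
  rw [e5] at key
  exact key

end Pool.Agent.Q35.MM
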